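import Pool.Agent.H51.Td.Final

namespace Pool.Agent.Results.MP_04d34b_co.Growth

open Pool.Agent.H51.Td Filter Asymptotics

/-- For every `t ≥ 2` the largest treedepth `h k t` of a finite `P_t`-free graph of treewidth at
most `k` exists, lies between `C(k + m, m)` and `3 (k + 2) ^ m` where `m = ⌊(t - 1) / 2⌋`, and so
has growth rate exactly `k ^ m`. -/
theorem result (t : ℕ) (ht : 2 ≤ t) :
    (∀ k : ℕ, IsGreatest (tdSet k t) (h k t)) ∧
    (∀ k : ℕ, (k + (t - 1) / 2).choose ((t - 1) / 2) ≤ h k t ∧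
      h k t ≤ 3 * (k + 2) ^ ((t - 1) / 2)) ∧
    (fun k : ℕ => (h k t : ℝ)) =Θ[atTop] (fun k : ℕ => (k : ℝ) ^ ((t - 1) / 2)) :=
  ⟨h_isGreatest ht, fun k => ⟨h_lower ht k, h_upper ht k⟩, h_isTheta ht⟩

end Pool.Agent.Results.MP_04d34b_co.Growth
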